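import Pool.Agent.Helper47.FLG.Alg

/-!
For MP_c98eff_gt, project FLG of helper47, packet PSI: the remaining quadratic form.
-/

namespace Pool.Agent.Helper47.FLG

open Finset Pool.Agent.Helper47.RFn

namespace PsiAux

variable {ι : Type} [DecidableEq ι]

/-- the form of SCA (1) -/
noncomputable def F1 (p q a b : ℝ) : ℝ :=
  q * ((2 * a - b) ^ 2 / (4 - p)) + p * ((2 * b - a) ^ 2 / (4 - q)) - (a ^ 2 + b ^ 2 - 4 * a * b)

/-- the form of SCA (2) -/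
noncomputable def F2 (p q a b : ℝ) : ℝ :=
  q * ((2 * a - b) ^ 2 / (p - 1)) + p * ((2 * b - a) ^ 2 / (q - 1)) + (a ^ 2 + b ^ 2 - 4 * a * b)

/-- the form of SCA (3) -/
noncomputable def F3 (s w : ℝ) : ℝ := 64 * w ^ 2 / (3 - s) + 4 * w ^ 2 / s - 12 * w ^ 2

/-- the form of SCA (4) -/
noncomputable def F4 (s β γ : ℝ) : ℝ :=
  16 * (2 * β + γ) ^ 2 / s + (β - γ) ^ 2 / (3 - s) + 5 / 3 * (1 + s) * (β + 2 * γ) ^ 2 +
    3 * γ ^ 2 + 6 * β ^ 2 + 18 * β * γ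

omit [DecidableEq ι] in
theorem sum_symm (M : Finset ι) (h : ι → ι → ℝ) :
    ∑ p ∈ M, ∑ q ∈ M, h p q = ∑ p ∈ M, ∑ q ∈ M, (h p q + h q p) / 2 := by
  have e : ∑ p ∈ M, ∑ q ∈ M, h q p = ∑ p ∈ M, ∑ q ∈ M, h p q := Finset.sum_comm
  have e2 : ∑ p ∈ M, ∑ q ∈ M, (h p q + h q p) / 2 =
      (∑ p ∈ M, ∑ q ∈ M, h p q + ∑ p ∈ M, ∑ q ∈ M, h q p) / 2 := by
    rw [← Finset.sum_add_distrib, Finset.sum_div]
    refine Finset.sum_congr rfl fun p _ => ?_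
    rw [← Finset.sum_add_distrib, Finset.sum_div]
  rw [e2, e]
  ring

/-- double sum over `insert i1 (insert i2 M)` -/
theorem sum_block {M : Finset ι} {i1 i2 : ι} (h12 : i1 ≠ i2) (h1 : i1 ∉ M) (h2 : i2 ∉ M)
    (g : ι → ι → ℝ) :
    ∑ p ∈ insert i1 (insert i2 M), ∑ q ∈ insert i1 (insert i2 M), g p q =
      (g i1 i1 + g i1 i2 + g i2 i1 + g i2 i2) +
        ∑ m ∈ M, (g i1 m + g m i1 + g i2 m + g m i2) + ∑ p ∈ M, ∑ q ∈ M, g p q := by
  have h1' : i1 ∉ insert i2 M := by simp [h12, h1]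
  have e : ∀ p, ∑ q ∈ insert i1 (insert i2 M), g p q = g p i1 + (g p i2 + ∑ q ∈ M, g p q) := by
    intro p
    rw [Finset.sum_insert h1', Finset.sum_insert h2]
  simp only [e]
  rw [Finset.sum_insert h1', Finset.sum_insert h2]
  simp only [Finset.sum_add_distrib]
  ring

/-- The decomposition. -/
theorem decomp {M : Finset ι} {i1 i2 : ι} (h12 : i1 ≠ i2) (h1 : i1 ∉ M) (h2 : i2 ∉ M)
    (r w β γ : ι → ℝ) (A A' : ι → ι → ℝ) (hr1 : r i1 = 4) (hr2 : r i2 = 1)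
    (a11 : A i1 i1 = 0) (a12 : A i1 i2 = 0) (a21 : A i2 i1 = 0) (a22 : A i2 i2 = 0)
    (b11 : A' i1 i1 = 0) (b12 : A' i1 i2 = 0) (b21 : A' i2 i1 = 0) (b22 : A' i2 i2 = 0)
    (am1 : ∀ m ∈ M, A m i1 = 0) (a1m : ∀ m ∈ M, A i1 m = -4 * w m) (am2 : ∀ m ∈ M, A m i2 = β m)
    (a2m : ∀ m ∈ M, A i2 m = β m + γ m) (bm2 : ∀ m ∈ M, A' m i2 = 0)
    (b2m : ∀ m ∈ M, A' i2 m = - w m) (b1m : ∀ m ∈ M, A' i1 m = γ m)
    (bm1 : ∀ m ∈ M, A' m i1 = - β m) :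
    (∑ q ∈ insert i1 (insert i2 M), r q *
        ((∑ p ∈ insert i2 M, (2 * A p q - A q p) ^ 2 / (4 - r p)) +
          4 * ∑ p ∈ insert i1 M, (2 * A' p q - A' q p) ^ 2 / (r p - 1))) +
      4 * (∑ p ∈ insert i1 (insert i2 M), ∑ q ∈ insert i1 (insert i2 M),
        (A' p q ^ 2 - 2 * A' p q * A' q p)) -
      (∑ p ∈ insert i1 (insert i2 M), ∑ q ∈ insert i1 (insert i2 M),
        (A p q ^ 2 - 2 * A p q * A q p)) =
    (∑ p ∈ M, ∑ q ∈ M, (F1 (r p) (r q) (A p q) (A q p) / 2 +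
        2 * F2 (r p) (r q) (A' p q) (A' q p))) +
      ∑ m ∈ M, (F3 (r m - 1) (w m) + F4 (r m - 1) (β m) (γ m)) := by
  have h1' : i1 ∉ insert i2 M := by simp [h12, h1]
  rw [sum_block h12 h1 h2, sum_block h12 h1 h2]
  -- the gain
  have eg : ∀ q, r q * ((∑ p ∈ insert i2 M, (2 * A p q - A q p) ^ 2 / (4 - r p)) +
          4 * ∑ p ∈ insert i1 M, (2 * A' p q - A' q p) ^ 2 / (r p - 1)) =
      r q * ((2 * A i2 q - A q i2) ^ 2 / 3 + 4 * ((2 * A' i1 q - A' q i1) ^ 2 / 3)) +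
        ∑ p ∈ M, (r q * ((2 * A p q - A q p) ^ 2 / (4 - r p)) +
          4 * (r q * ((2 * A' p q - A' q p) ^ 2 / (r p - 1)))) := by
    intro q
    rw [Finset.sum_insert h2, Finset.sum_insert h1, hr1, hr2, Finset.sum_add_distrib,
      ← Finset.mul_sum, ← Finset.mul_sum, ← Finset.mul_sum]
    ring
  simp only [eg]
  rw [Finset.sum_insert h1', Finset.sum_insert h2]
  rw [a11, a12, a21, a22, b11, b12, b21, b22, hr1, hr2, Finset.sum_add_distrib (s := M)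
    (f := fun q => r q * ((2 * A i2 q - A q i2) ^ 2 / 3 + 4 * ((2 * A' i1 q - A' q i1) ^ 2 / 3)))]
  have s1 : ∑ q ∈ M, ∑ p ∈ M, (r q * ((2 * A p q - A q p) ^ 2 / (4 - r p)) +
      4 * (r q * ((2 * A' p q - A' q p) ^ 2 / (r p - 1)))) =
      ∑ p ∈ M, ∑ q ∈ M, (r q * ((2 * A p q - A q p) ^ 2 / (4 - r p)) +
      4 * (r q * ((2 * A' p q - A' q p) ^ 2 / (r p - 1)))) := Finset.sum_comm
  rw [s1]
  have s2 : (∑ p ∈ M, ∑ q ∈ M, (r q * ((2 * A p q - A q p) ^ 2 / (4 - r p)) +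
      4 * (r q * ((2 * A' p q - A' q p) ^ 2 / (r p - 1))))) +
      4 * (∑ p ∈ M, ∑ q ∈ M, (A' p q ^ 2 - 2 * A' p q * A' q p)) -
      (∑ p ∈ M, ∑ q ∈ M, (A p q ^ 2 - 2 * A p q * A q p)) =
      ∑ p ∈ M, ∑ q ∈ M, (F1 (r p) (r q) (A p q) (A q p) / 2 +
        2 * F2 (r p) (r q) (A' p q) (A' q p)) := by
    have s3 : (∑ p ∈ M, ∑ q ∈ M, (r q * ((2 * A p q - A q p) ^ 2 / (4 - r p)) +
      4 * (r q * ((2 * A' p q - A' q p) ^ 2 / (r p - 1))))) +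
      4 * (∑ p ∈ M, ∑ q ∈ M, (A' p q ^ 2 - 2 * A' p q * A' q p)) -
      (∑ p ∈ M, ∑ q ∈ M, (A p q ^ 2 - 2 * A p q * A q p)) =
      ∑ p ∈ M, ∑ q ∈ M, ((r q * ((2 * A p q - A q p) ^ 2 / (4 - r p)) +
        4 * (r q * ((2 * A' p q - A' q p) ^ 2 / (r p - 1)))) +
        4 * (A' p q ^ 2 - 2 * A' p q * A' q p) - (A p q ^ 2 - 2 * A p q * A q p)) := by
      have s3a : 4 * (∑ p ∈ M, ∑ q ∈ M, (A' p q ^ 2 - 2 * A' p q * A' q p)) =
          ∑ p ∈ M, ∑ q ∈ M, 4 * (A' p q ^ 2 - 2 * A' p q * A' q p) := by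
        rw [Finset.mul_sum]
        exact Finset.sum_congr rfl fun p _ => Finset.mul_sum _ _ _
      rw [s3a]
      simp only [Finset.sum_add_distrib, Finset.sum_sub_distrib]
    rw [s3, sum_symm]
    refine Finset.sum_congr rfl fun p _ => Finset.sum_congr rfl fun q _ => ?_
    unfold F1 F2
    ring
  have s5 : (∑ p ∈ M, (4 * ((2 * A p i1 - A i1 p) ^ 2 / (4 - r p)) +
        4 * (4 * ((2 * A' p i1 - A' i1 p) ^ 2 / (r p - 1))))) +
      (∑ p ∈ M, (1 * ((2 * A p i2 - A i2 p) ^ 2 / (4 - r p)) +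
        4 * (1 * ((2 * A' p i2 - A' i2 p) ^ 2 / (r p - 1))))) +
      (∑ q ∈ M, r q * ((2 * A i2 q - A q i2) ^ 2 / 3 + 4 * ((2 * A' i1 q - A' q i1) ^ 2 / 3))) +
      4 * (∑ m ∈ M, (A' i1 m ^ 2 - 2 * A' i1 m * A' m i1 + (A' m i1 ^ 2 - 2 * A' m i1 * A' i1 m) +
        (A' i2 m ^ 2 - 2 * A' i2 m * A' m i2) + (A' m i2 ^ 2 - 2 * A' m i2 * A' i2 m))) -
      (∑ m ∈ M, (A i1 m ^ 2 - 2 * A i1 m * A m i1 + (A m i1 ^ 2 - 2 * A m i1 * A i1 m) +
        (A i2 m ^ 2 - 2 * A i2 m * A m i2) + (A m i2 ^ 2 - 2 * A m i2 * A i2 m))) =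
      ∑ m ∈ M, (F3 (r m - 1) (w m) + F4 (r m - 1) (β m) (γ m)) := by
    rw [Finset.mul_sum, ← Finset.sum_add_distrib, ← Finset.sum_add_distrib,
      ← Finset.sum_add_distrib, ← Finset.sum_sub_distrib]
    refine Finset.sum_congr rfl fun m hm => ?_
    rw [am1 m hm, a1m m hm, am2 m hm, a2m m hm, bm2 m hm, b2m m hm, b1m m hm, bm1 m hm]
    unfold F3 F4
    have e3 : (3 : ℝ) - (r m - 1) = 4 - r m := by ring
    rw [e3]
    ring
  rw [← s2, ← s5]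
  ring

end PsiAux

open PsiAux in
theorem g_PSI (hFO : G_FO) (hGQ : G_GQ) (hSCA : G_SCA) : G_PSI := by
  intro n R i0 i1 i2 r H
  obtain ⟨hr, fo1, fo2, fo3⟩ := hFO n R i0 i1 i2 r H
  have hgq := hGQ n R i0 i1 i2 r H
  obtain ⟨sc1, sc2, sc3, sc4⟩ := hSCA
  have C : IsCurv R := H.fg.1
  have d01 := H.d01
  have d02 := H.d02
  have d12 := H.d12
  set M : Finset (Fin n) := ((univ.erase i0).erase i1).erase i2 with hM
  have memM : ∀ m, m ∈ M ↔ m ≠ i2 ∧ m ≠ i1 ∧ m ≠ i0 := by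
    intro m; simp [hM]
  have h1 : i1 ∉ M := by simp [hM]
  have h2 : i2 ∉ M := by simp [hM]
  have eN : univ.erase i0 = insert i1 (insert i2 M) := by
    ext m
    simp only [mem_erase, mem_univ, and_true, mem_insert, memM]
    constructor
    · intro h
      by_cases a : m = i1
      · exact Or.inl a
      by_cases b : m = i2
      · exact Or.inr (Or.inl b)
      exact Or.inr (Or.inr ⟨b, a, h⟩)
    · rintro (h | h | h)
      · rw [h]; exact d01.symm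
      · rw [h]; exact d02.symm
      · exact h.2.2
  have eN1 : (univ.erase i0).erase i1 = insert i2 M := by
    ext m
    simp only [mem_erase, mem_univ, and_true, mem_insert, memM]
    constructor
    · intro h
      by_cases b : m = i2
      · exact Or.inl b
      exact Or.inr ⟨b, h.1, h.2⟩
    · rintro (h | h)
      · rw [h]; exact ⟨d12.symm, d02.symm⟩
      · exact ⟨h.2.1, h.2.2⟩
  have eN2 : (univ.erase i0).erase i2 = insert i1 M := by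
    ext m
    simp only [mem_erase, mem_univ, and_true, mem_insert, memM]
    constructor
    · intro h
      by_cases b : m = i1
      · exact Or.inl b
      exact Or.inr ⟨h.1, b, h.2⟩
    · rintro (h | h)
      · rw [h]; exact ⟨d12, d01.symm⟩
      · exact ⟨h.1, h.2.2⟩
  -- vanishing entries
  have z34 : ∀ a b c, R a b c c = 0 := fun a b c => by
    have := C.a34 a b c c; linarith
  have z12 : ∀ a c d, R a a c d = 0 := fun a c d => by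
    have := C.a12 a a c d; linarith
  have a12 : R i0 i1 i1 i2 = 0 := by
    have := C.a12 i0 i1 i1 i2; rw [this, fo2, neg_zero]
  have a22 : R i0 i2 i1 i2 = 0 := by
    rw [C.a12, C.a34, fo1]; ring
  have b11 : R i0 i1 i2 i1 = 0 := by
    rw [C.a12, C.a34, fo2]; ring
  have b21 : R i0 i2 i2 i1 = 0 := by
    rw [C.a12, fo1, neg_zero]
  have a1m : ∀ m ∈ M, R i0 i1 i1 m = -4 * R i2 i0 i2 m := by
    intro m hm
    rw [C.a12, fo3 m ((memM m).1 hm).2.2]; ring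
  have a2m : ∀ m ∈ M, R i0 i2 i1 m = R i0 m i1 i2 + R i0 i1 i2 m := by
    intro m _
    -- R i0 i2 i1 m = R i1 m i0 i2, Bianchi
    have b1 := C.bian i2 i1 m i0
    -- R i2 i1 m i0 + R i1 m i2 i0 + R m i2 i1 i0 = 0
    have e1 : R i2 i1 m i0 = R i0 m i1 i2 := by
      rw [C.pair, C.a12, C.a34]; ring
    have e2 : R i1 m i2 i0 = - R i0 i2 i1 m := by
      rw [C.pair, C.a12]
    have e3 : R m i2 i1 i0 = R i0 i1 i2 m := by
      rw [C.pair, C.a12, C.a34]; ring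
    rw [e1, e2, e3] at b1
    linarith
  have b2m : ∀ m ∈ M, R i0 i2 i2 m = - R i2 i0 i2 m := fun m _ => C.a12 _ _ _ _
  have bm1 : ∀ m ∈ M, R i0 m i2 i1 = - R i0 m i1 i2 := fun m _ => C.a34 _ _ _ _
  have dec := decomp (M := M) d12 h1 h2 r (fun m => R i2 i0 i2 m) (fun m => R i0 m i1 i2)
    (fun m => R i0 i1 i2 m) (fun p q => R i0 p i1 q) (fun p q => R i0 p i2 q) H.r1 H.r2
    (z34 _ _ _) a12 (z34 _ _ _) a22 b11 (z34 _ _ _) b21 (z34 _ _ _)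
    (fun m _ => z34 _ _ _) a1m (fun m _ => rfl) a2m (fun m _ => z34 _ _ _) b2m (fun m _ => rfl) bm1
  have eΨ : (∑ q ∈ univ.erase i0, r q * Gn R i0 i1 i2 r q) + 4 * bk R i0 i2 - bk R i0 i1 =
      (∑ p ∈ M, ∑ q ∈ M, (F1 (r p) (r q) (R i0 p i1 q) (R i0 q i1 p) / 2 +
        2 * F2 (r p) (r q) (R i0 p i2 q) (R i0 q i2 p))) +
      ∑ m ∈ M, (F3 (r m - 1) (R i2 i0 i2 m) + F4 (r m - 1) (R i0 m i1 i2) (R i0 i1 i2 m)) := by
    rw [← dec]
    unfold Gn bk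
    rw [eN1, eN2, eN]
  -- the scalar facts
  have f1 : ∀ p ∈ M, ∀ q ∈ M, 0 ≤ F1 (r p) (r q) (R i0 p i1 q) (R i0 q i1 p) ∧
      (F1 (r p) (r q) (R i0 p i1 q) (R i0 q i1 p) = 0 →
        (r p = 1 ∧ r q = 1 ∧ R i0 p i1 q + R i0 q i1 p = 0) ∨
          (R i0 p i1 q = 0 ∧ R i0 q i1 p = 0)) := by
    intro p hp q hq
    have mp := (memM p).1 hp
    have mq := (memM q).1 hq
    exact sc1 (r p) (r q) _ _ (hr p mp.2.2).1 (hr p mp.2.2).2 (hr q mq.2.2).1 (hr q mq.2.2).2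
      (fun h => (hgq q mq.2.2).2.1 p mp.2.2 mp.2.1 h) (fun h => (hgq p mp.2.2).2.1 q mq.2.2 mq.2.1 h)
  have f2 : ∀ p ∈ M, ∀ q ∈ M, 0 ≤ F2 (r p) (r q) (R i0 p i2 q) (R i0 q i2 p) ∧
      (F2 (r p) (r q) (R i0 p i2 q) (R i0 q i2 p) = 0 →
        (r p = 4 ∧ r q = 1 ∧ R i0 p i2 q = 2 * R i0 q i2 p) ∨
        (r p = 1 ∧ r q = 4 ∧ R i0 q i2 p = 2 * R i0 p i2 q) ∨
          (R i0 p i2 q = 0 ∧ R i0 q i2 p = 0)) := by
    intro p hp q hq
    have mp := (memM p).1 hp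
    have mq := (memM q).1 hq
    exact sc2 (r p) (r q) _ _ (hr p mp.2.2).1 (hr p mp.2.2).2 (hr q mq.2.2).1 (hr q mq.2.2).2
      (fun h => (hgq q mq.2.2).2.2 p mp.2.2 mp.1 h) (fun h => (hgq p mp.2.2).2.2 q mq.2.2 mq.1 h)
  have f3 : ∀ m ∈ M, 0 ≤ F3 (r m - 1) (R i2 i0 i2 m) ∧
      (F3 (r m - 1) (R i2 i0 i2 m) = 0 → R i2 i0 i2 m = 0) := by
    intro m hm
    have mm := (memM m).1 hm
    have hb := hr m mm.2.2
    refine sc3 (r m - 1) _ (by linarith) (by linarith) (fun h => ?_) (fun h => ?_)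
    · have h4 := (hgq i2 d02.symm).2.2 m mm.2.2 mm.1 (by linarith)
      rw [z34, b2m m hm] at h4
      linarith
    · have h4 := (hgq i1 d01.symm).2.1 m mm.2.2 mm.2.1 (by linarith)
      rw [z34, a1m m hm] at h4
      linarith
  have f4 : ∀ m ∈ M, 0 ≤ F4 (r m - 1) (R i0 m i1 i2) (R i0 i1 i2 m) ∧
      (F4 (r m - 1) (R i0 m i1 i2) (R i0 i1 i2 m) = 0 →
        (r m - 1 = 0 ∧ R i0 i1 i2 m = -2 * R i0 m i1 i2) ∨
          (R i0 m i1 i2 = 0 ∧ R i0 i1 i2 m = 0)) := by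
    intro m hm
    have mm := (memM m).1 hm
    have hb := hr m mm.2.2
    refine sc4 (r m - 1) _ _ (by linarith) (by linarith) (fun h => ?_) (fun h => ?_)
    · have h4 := (hgq i1 d01.symm).2.2 m mm.2.2 mm.1 (by linarith)
      rw [bm1 m hm] at h4
      linarith
    · have h4 := (hgq i2 d02.symm).2.1 m mm.2.2 mm.2.1 (by linarith)
      rw [a2m m hm] at h4
      linarith
  have n1 : ∀ p ∈ M, ∀ q ∈ M, 0 ≤ F1 (r p) (r q) (R i0 p i1 q) (R i0 q i1 p) / 2 +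
        2 * F2 (r p) (r q) (R i0 p i2 q) (R i0 q i2 p) := by
    intro p hp q hq
    have := (f1 p hp q hq).1
    have := (f2 p hp q hq).1
    positivity
  have n2 : ∀ m ∈ M, 0 ≤ F3 (r m - 1) (R i2 i0 i2 m) +
      F4 (r m - 1) (R i0 m i1 i2) (R i0 i1 i2 m) := fun m hm => add_nonneg (f3 m hm).1 (f4 m hm).1
  have s1 : 0 ≤ ∑ p ∈ M, ∑ q ∈ M, (F1 (r p) (r q) (R i0 p i1 q) (R i0 q i1 p) / 2 +
        2 * F2 (r p) (r q) (R i0 p i2 q) (R i0 q i2 p)) :=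
    Finset.sum_nonneg fun p hp => Finset.sum_nonneg fun q hq => n1 p hp q hq
  have s2 : 0 ≤ ∑ m ∈ M, (F3 (r m - 1) (R i2 i0 i2 m) +
      F4 (r m - 1) (R i0 m i1 i2) (R i0 i1 i2 m)) := Finset.sum_nonneg n2
  rw [eΨ]
  refine ⟨add_nonneg s1 s2, fun hz => ?_⟩
  have t1 : ∑ p ∈ M, ∑ q ∈ M, (F1 (r p) (r q) (R i0 p i1 q) (R i0 q i1 p) / 2 +
        2 * F2 (r p) (r q) (R i0 p i2 q) (R i0 q i2 p)) = 0 := by linarith
  have t2 : ∑ m ∈ M, (F3 (r m - 1) (R i2 i0 i2 m) +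
      F4 (r m - 1) (R i0 m i1 i2) (R i0 i1 i2 m)) = 0 := by linarith
  have t3 : ∀ p ∈ M, ∀ q ∈ M, F1 (r p) (r q) (R i0 p i1 q) (R i0 q i1 p) = 0 ∧
      F2 (r p) (r q) (R i0 p i2 q) (R i0 q i2 p) = 0 := by
    intro p hp q hq
    have u1 := (Finset.sum_eq_zero_iff_of_nonneg fun p hp =>
      Finset.sum_nonneg fun q hq => n1 p hp q hq).1 t1 p hp
    have u2 := (Finset.sum_eq_zero_iff_of_nonneg fun q hq => n1 p hp q hq).1 u1 q hq
    have := (f1 p hp q hq).1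
    have := (f2 p hp q hq).1
    constructor <;> linarith
  have t4 : ∀ m ∈ M, F3 (r m - 1) (R i2 i0 i2 m) = 0 ∧
      F4 (r m - 1) (R i0 m i1 i2) (R i0 i1 i2 m) = 0 := by
    intro m hm
    have u1 := (Finset.sum_eq_zero_iff_of_nonneg n2).1 t2 m hm
    have := (f3 m hm).1
    have := (f4 m hm).1
    constructor <;> linarith
  have w0 : ∀ m ∈ M, R i2 i0 i2 m = 0 := fun m hm => (f3 m hm).2 (t4 m hm).1
  have c4 := fun m hm => (f4 m hm).2 (t4 m hm).2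
  have cases3 : ∀ q, q ≠ i0 → q = i1 ∨ q = i2 ∨ q ∈ M := by
    intro q hq
    have : q ∈ univ.erase i0 := by simp [hq]
    rw [eN, mem_insert, mem_insert] at this
    exact this
  have za21 : R i0 i2 i1 i1 = 0 := z34 _ _ _
  have za11 : R i0 i1 i1 i1 = 0 := z34 _ _ _
  have zb12 : R i0 i1 i2 i2 = 0 := z34 _ _ _
  have zb22 : R i0 i2 i2 i2 = 0 := z34 _ _ _
  refine ⟨fun q hq => ?_, fun p q hp hq => ?_, fun p q hp hq => ?_⟩
  · rcases cases3 q hq with rfl | rfl | hm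
    · exact fo1
    · have := C.a34 q i0 q q; linarith
    · exact w0 q hm
  · rcases cases3 p hp with rfl | rfl | hpm
    · rcases cases3 q hq with rfl | rfl | hqm
      · exact Or.inr ⟨za11, za11⟩
      · exact Or.inr ⟨a12, za21⟩
      · refine Or.inr ⟨?_, z34 _ _ _⟩
        rw [a1m q hqm, w0 q hqm]; ring
    · rcases cases3 q hq with rfl | rfl | hqm
      · exact Or.inr ⟨za21, a12⟩
      · exact Or.inr ⟨a22, a22⟩
      · rcases c4 q hqm with ⟨e1, e2⟩ | ⟨e1, e2⟩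
        · refine Or.inl ⟨H.r2, by linarith, ?_⟩
          rw [a2m q hqm]; linarith
        · refine Or.inr ⟨?_, e1⟩
          rw [a2m q hqm]; linarith
    · rcases cases3 q hq with rfl | rfl | hqm
      · refine Or.inr ⟨z34 _ _ _, ?_⟩
        rw [a1m p hpm, w0 p hpm]; ring
      · rcases c4 p hpm with ⟨e1, e2⟩ | ⟨e1, e2⟩
        · refine Or.inl ⟨by linarith, H.r2, ?_⟩
          rw [a2m p hpm]; linarith
        · refine Or.inr ⟨e1, ?_⟩
          rw [a2m p hpm]; linarith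
      · exact (f1 p hpm q hqm).2 (t3 p hpm q hqm).1
  · rcases cases3 p hp with rfl | rfl | hpm
    · rcases cases3 q hq with rfl | rfl | hqm
      · exact Or.inr (Or.inr ⟨b11, b11⟩)
      · exact Or.inr (Or.inr ⟨zb12, b21⟩)
      · rcases c4 q hqm with ⟨e1, e2⟩ | ⟨e1, e2⟩
        · refine Or.inl ⟨H.r1, by linarith, ?_⟩
          rw [bm1 q hqm]; linarith
        · refine Or.inr (Or.inr ⟨e2, ?_⟩)
          rw [bm1 q hqm]; linarith
    · rcases cases3 q hq with rfl | rfl | hqm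
      · exact Or.inr (Or.inr ⟨b21, zb12⟩)
      · exact Or.inr (Or.inr ⟨zb22, zb22⟩)
      · refine Or.inr (Or.inr ⟨?_, z34 _ _ _⟩)
        rw [b2m q hqm, w0 q hqm]; ring
    · rcases cases3 q hq with rfl | rfl | hqm
      · rcases c4 p hpm with ⟨e1, e2⟩ | ⟨e1, e2⟩
        · refine Or.inr (Or.inl ⟨by linarith, H.r1, ?_⟩)
          rw [bm1 p hpm]; linarith
        · refine Or.inr (Or.inr ⟨?_, e2⟩)
          rw [bm1 p hpm]; linarith
      · refine Or.inr (Or.inr ⟨z34 _ _ _, ?_⟩)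
        rw [b2m p hpm, w0 p hpm]; ring
      · exact (f2 p hpm q hqm).2 (t3 p hpm q hqm).2

end Pool.Agent.Helper47.FLG
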