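import Pool.Agent.Helper47.FLG.Fun
import Pool.Agent.Helper68.RFn.CONP

/-!
# Project FLG (MP_c98eff_gt, helper47), packet FIV: invariance at the function level
-/

set_option autoImplicit false

namespace Pool.Agent.Helper47.FLG

open Finset Pool.Agent.Helper47.RFn Pool.Agent.Helper73.RFn Pool.Agent.Helper68.RFn.CON

theorem p_FIV (MOD : Goal_MOD) (FLB : Goal_FLB) (NRO : Goal_NRO) (NIN : G_NIN) (DCT : G_DCT)
    (INVF : G_INVF) (FJS : FjsStmt) (FHM : FhmStmt) : FivStmt := by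
  intro n hn
  obtain ⟨CN, hCN, hINV⟩ := INVF n hn
  refine ⟨1 + CN, by linarith, ?_⟩
  intro T l0 A θ hT hl0 hfl hin
  have hsub : Set.Ioo 0 T ⊆ Set.Ico 0 T := Set.Ioo_subset_Ico_self
  obtain ⟨M, hM⟩ := MOD n T hT
  obtain ⟨hA, hθ, -⟩ := FJS n T _ A θ hT hsub hfl
  have hA' : MJ T A := fun i j => ⟨(hA i j).cd, (hA i j).hom⟩
  have hθ' : MJ T θ := fun i j => ⟨(hθ i j).cd, (hθ i j).hom⟩
  obtain ⟨-, hFull, hRF, hdic, hdicR, -, -⟩ := FLB n T hT M hM _ A θ hsub hfl hA' hθ'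
  obtain ⟨hbdR, -⟩ := NRO n T hT M hM A θ hfl hA' hθ'
  obtain ⟨hDC, hHO⟩ := DCT n T hT M hM _ A θ hsub hfl hA' hθ'
  obtain ⟨fh1, fh2⟩ := FHM n
  obtain ⟨hfrm, hfR, -, hfl', -⟩ := fh2 _ A θ hfl
  have hIF := NIN n T hT M hM A θ hfl hA' hθ' l0 hin
  have hbd : ∀ i j k l, (M.flB A θ).Bd0 ((M.flB A θ).R i j k l) := fun i j k l => hbdR [] i j k l
  obtain ⟨hCone, hFG⟩ := hINV T (M.flB A θ) hFull hRF hbd l0 hl0 hIF
  have hsm : ∀ t, 0 ≤ t → t < T → Sm (lamf (A t) (θ t)) ∧ ∀ a b c d, Sm (Rf (A t) (θ t) a b c d) := by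
    intro t h0 h1
    obtain ⟨-, -, -, k1, -, k2, -⟩ := fh1 (A t) (θ t) (hfrm t ⟨h0, h1⟩)
    exact ⟨k2, k1⟩
  have hpt : ∀ x : EE n, x ≠ 0 → ∃ z : M.Z, M.pt z = (‖x‖⁻¹ : ℝ) • x ∧ M.fr z = one := by
    intro x hx
    refine hM.surj _ _ ?_ (one_mem n)
    rw [norm_smul, norm_inv, norm_norm, inv_mul_cancel₀ (norm_ne_zero_iff.2 hx)]
  have hr : ∀ x : EE n, x ≠ 0 → 0 < ‖x‖⁻¹ := fun x hx => inv_pos.2 (norm_pos_iff.2 hx)
  have hp1 : ∀ t, 0 < t → t < T → ∀ x, x ≠ 0 → l0 ≤ lamf (A t) (θ t) x ∧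
      FGF (A t) (θ t) x ∧ ∀ a b c d, |Rf (A t) (θ t) a b c d x| ≤ CN * lamf (A t) (θ t) x := by
    intro t h0 h1 x hx
    obtain ⟨z, hz1, hz2⟩ := hpt x hx
    obtain ⟨s2, s4⟩ := hsm t h0.le h1
    have z1 : (M.flB A θ).ev z ⟨t, h0, h1⟩ (M.flB A θ).lam = lamf (A t) (θ t) x := by
      rw [(hdic z ⟨t, h0, h1⟩).1, hz1]
      exact s2.hom _ x (hr x hx)
    have z4 : ∀ a b c d, (M.flB A θ).ev z ⟨t, h0, h1⟩ ((M.flB A θ).R a b c d) =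
        Rf (A t) (θ t) a b c d x := by
      intro a b c d
      rw [hdicR z ⟨t, h0, h1⟩ a b c d, hz1, hz2]
      have e1 : ∀ i j k l, Rf (A t) (θ t) i j k l ((‖x‖⁻¹ : ℝ) • x) = Rf (A t) (θ t) i j k l x :=
        fun i j k l => (s4 i j k l).hom _ x (hr x hx)
      show ∑ i, ∑ j, ∑ k, ∑ l, one a i * one b j * one c k * one d l *
        Rf (A t) (θ t) i j k l ((‖x‖⁻¹ : ℝ) • x) = _
      simp only [e1, mul_assoc, ← Finset.mul_sum, sum_one]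
    obtain ⟨c1, c2⟩ := hCone z ⟨t, h0, h1⟩
    rw [z1] at c1 c2
    refine ⟨c1, ?_, fun a b c d => ?_⟩
    · have h3 := (hDC z ⟨t, h0, h1⟩ FG).1.1 (hFG z ⟨t, h0, h1⟩)
      obtain ⟨g1, g2, -⟩ := hHO t h0 h1 x hx
      intro ι hι
      rw [g2]
      rw [hz1] at h3
      refine h3 ι ?_
      have e : (fun a => nfc (A t) a x) = fun a => nfc (A t) a ((‖x‖⁻¹ : ℝ) • x) := funext g1
      rw [e] at hι
      exact hι
    · rw [← z4]
      exact c2 a b c d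
  intro t h0 h1 x hx
  have key : l0 ≤ lamf (A t) (θ t) x ∧ FGF (A t) (θ t) x ∧
      ∀ a b c d, |Rf (A t) (θ t) a b c d x| ≤ CN * lamf (A t) (θ t) x := by
    rcases h0.eq_or_lt with h0 | h0
    · subst h0
      exact ⟨(hin x hx).1, (hin x hx).2, fun a b c d => limit_le hT (hfR a b c d) hfl' CN hx
        fun t h0 h1 => (hp1 t h0 h1 x hx).2.2 a b c d⟩
    · exact hp1 t h0 h1 x hx
  refine ⟨key.1, key.2.1, fun a b c d => (key.2.2 a b c d).trans ?_⟩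
  exact mul_le_mul_of_nonneg_right (by linarith) (hl0.le.trans key.1)

end Pool.Agent.Helper47.FLG
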